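import Pool.Agent.N226.SX.St
import Pool.Agent.Results.MP_56ddc0_co.AllOrders

/-!
Fixed polyominoes: asymptotic forms and expansions of their numbers along sparse sizes.

`Kl.t n` is the number of fixed `n`-ominoes (classes of connected `n`-sets of cells of the square
lattice modulo translations).
-/

set_option autoImplicit false

open Filter Topology Pool.Agent.N789

namespace Pool.Agent.Results.MP_d35578_co.ExpansionsFromSparseSizes

/-- the expansion `θ log n + ∑ b_i n ^ (-e_i)` -/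
noncomputable def expansion (q : ℕ) (θ : ℝ) (b e : Fin q → ℝ) (n : ℕ) : ℝ :=
  θ * Real.log n + ∑ i, b i * (n : ℝ) ^ (-(e i))

/-- the difference of order `r` of the sequence `f` at `n` (up to the sign `(-1)^r`) -/
noncomputable def diff (r : ℕ) (f : ℕ → ℝ) (n : ℕ) : ℝ :=
  ∑ i ∈ Finset.range (r + 1), (-1 : ℝ) ^ i * (r.choose i : ℝ) * f (n + i)

/-- **Theorem.** Let `B_n = Kl.t n` be the number of fixed polyominoes with `n` cells and `lam` the
limit of `B_n ^ (1/n)`. Let `u_j → ∞` be integers with gaps at most `u_j ^ α` for some `α < 1 / 2`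
(for instance `u_j = ⌊j ^ 1.99⌋`).
(1) If `B_n ~ C lam^n n^θ` (`C > 0`, `θ` real) along `n = u_j`, then along all `n`.
(2) Let `log (B_n / lam^n) = θ log n + ∑ b_i n^(-e_i) + O(n^(-M))` along `n = u_j`, a finite expansion
with any real exponents `e_i ≥ 0` and `M ≥ 0`. Then for every `s ≥ 0` and `t < 1/2` the `s`-th
difference of `log (B_n / lam^n) - θ log n - ∑ b_i n^(-e_i)` is `O(n^(-M - t s))`, along all `n`. -/
theorem result : ∃ lam : ℝ, 1 ≤ lam ∧
    Tendsto (fun n : ℕ => (Kl.t n : ℝ) ^ ((1 : ℝ) / n)) atTop (𝓝 lam) ∧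
    ∀ (α : ℝ), 0 ≤ α → α < 1 / 2 → ∀ u : ℕ → ℕ, Tendsto u atTop atTop →
      (∀ᶠ j : ℕ in atTop, (u (j + 1) : ℝ) ≤ u j + (u j : ℝ) ^ α) →
      (∀ C θ : ℝ, 0 < C →
        Tendsto (fun j : ℕ => (Kl.t (u j) : ℝ) / lam ^ (u j) / (u j : ℝ) ^ θ) atTop (𝓝 C) →
        Tendsto (fun n : ℕ => (Kl.t n : ℝ) / lam ^ n / (n : ℝ) ^ θ) atTop (𝓝 C)) ∧
      ∀ (q : ℕ) (θ : ℝ) (b e : Fin q → ℝ), (∀ i, 0 ≤ e i) → ∀ M : ℝ, 0 ≤ M →
        (∃ C : ℝ, ∀ᶠ j : ℕ in atTop,
          |Real.log ((Kl.t (u j) : ℝ) / lam ^ (u j)) - expansion q θ b e (u j)| ≤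
            C * (u j : ℝ) ^ (-M)) →
        ∀ (s : ℕ) (t : ℝ), 0 ≤ t → t < 1 / 2 → ∃ C : ℝ, ∀ᶠ n : ℕ in atTop,
          |diff s (fun n => Real.log ((Kl.t n : ℝ) / lam ^ n) - expansion q θ b e n) n| ≤
            C * (n : ℝ) ^ (-(M + t * s)) := by
  obtain ⟨lam, hlam, hlim, hd, -⟩ := Pool.Agent.Results.MP_56ddc0_co.AllOrders.result
  refine ⟨lam, hlam, hlim, ?_⟩
  intro α hα0 hα u hu hgap
  have hl0 : 0 < lam := by linarith
  have hpos : ∀ᶠ n : ℕ in atTop, 0 < (Kl.t n : ℝ) / lam ^ n := by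
    filter_upwards [eventually_ge_atTop 1] with n hn
    have : (0 : ℝ) < Kl.t n := by exact_mod_cast Kl.t_pos hn
    positivity
  have hreg := Pool.Agent.N226.SX.reg_of_log_st
    (f := fun n => Real.log ((Kl.t n : ℝ) / lam ^ n)) 1 le_rfl 0 fun r hr => by
      obtain ⟨K, hK⟩ := hd r hr
      refine ⟨K, (eventually_ge_atTop 2).mono fun n hn => ?_⟩
      have h1 := hK n hn
      simp only [Pool.Agent.N226.SX.Ds, one_mul]
      exact h1
  refine ⟨fun C θ hC hval => ?_, fun q θ b e he M hM hval s t ht0 ht => ?_⟩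
  · have h2 := Pool.Agent.N226.SX.form_st (P := fun n => (Kl.t n : ℝ) / lam ^ n) (by norm_num) hpos
      1 le_rfl 0 hreg α hα0 hα u hu hgap θ C hC (by
        simp only [one_mul, add_zero, Nat.cast_one, Nat.cast_zero]
        exact hval)
    simp only [one_mul, add_zero, Nat.cast_one, Nat.cast_zero] at h2
    exact h2
  · have h2 := Pool.Agent.N226.SX.main_st (by norm_num)
      (f := fun n => Real.log ((Kl.t n : ℝ) / lam ^ n)) 1 le_rfl 0 hreg
      q θ b e he M α hM hα0 hα u hu hgap (by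
        simp only [one_mul, add_zero]
        exact hval) s t ht0 ht
    simp only [one_mul, add_zero, Pool.Agent.N226.SX.Ds] at h2
    exact h2

end Pool.Agent.Results.MP_d35578_co.ExpansionsFromSparseSizes
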