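import Pool.Agent.H16TT.Taub
import Pool.Agent.H16TT.AppLem
import Pool.Agent.Results.MP_56ddc0_co.AllOrders
import Pool.Agent.N929.EZ.Lib2

/-!
# Fixed polyominoes: the generating function near its critical point determines the coefficients

Let `b n = Kl.t n / lam ^ n`, where `Kl.t n` is the number of fixed polyominoes with `n` cells (classes of connected `n`-sets
of cells of the square lattice modulo translations) and `lam` the limit of `(Kl.t n) ^ (1 / n)`, and
`F(s) = ∑ b n e ^ (-n s)`, `Re s > 0`, the generating function. It is a starting result that the differences of all orders of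
`log (b n)` are small, `O((log n / √n) ^ r)`.

* **Localization.** For all `0 < α < γ < 1 / 2` and `M` one has
  `b N = ∫_{|θ| ≤ N ^ (-α)} F(1 / N + i θ) k_N(θ) dθ + O(N ^ (-M))` with the explicit kernel
  `k_N(θ) = (1 - (1 - A ^ Q) ^ Q) z ^ N / (2 π)`, `z = exp (1 / N + i θ)`, `A = (1 / w) ∑_{j < w} z ^ j`,
  `w = ⌊N ^ γ⌋`.
* **Tauberian theorem.** Let `e n = ∑ a_i n ^ (-e_i)` be a finite sum and `β < k`. If
  `∑ n ^ k (b n - e n) e ^ (-n s)` is `o(|s| ^ (-(k - β + 1)))` as `s → 0` in the region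
  `0 < Re s`, `|Im s| ≤ (Re s) ^ α`, then `b n - e n = o(n ^ (-β))`; the same with `O`.

The general theorem for positive sequences (`Pool/Agent/H16TT`) is by helper16; its instance for polygons is
MP_376faf_co/GeneratingFunctionWindow.
-/

set_option autoImplicit false

open Filter Topology MeasureTheory Pool.Agent.N789

namespace Pool.Agent.Results.MP_d35578_co.GeneratingFunctionWindow

/-- `b n = B_n / lam ^ n`, `B_n` the number of fixed polyominoes with `n` cells -/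
noncomputable def b (lam : ℝ) (n : ℕ) : ℝ := (Kl.t n : ℝ) / lam ^ n

/-- the generating function `∑ g n e ^ (-n s)` of a sequence `g` -/
noncomputable def gf (g : ℕ → ℝ) (s : ℂ) : ℂ := ∑' n : ℕ, (g n : ℂ) * Complex.exp (-(n * s))

/-- the point `1 / N + i θ` -/
noncomputable def pt (N : ℕ) (θ : ℝ) : ℂ := (1 / (N : ℝ) : ℝ) + θ * Complex.I

/-- the average `(1 / w) ∑_{j < w} z ^ j` -/
noncomputable def average (w : ℕ) (z : ℂ) : ℂ := (∑ j ∈ Finset.range w, z ^ j) / w

/-- the kernel `(1 - (1 - A ^ Q) ^ Q) z ^ N / (2 π)`, `z = exp (1 / N + i θ)`, `A` the average of the `z ^ j`,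
`j < ⌊N ^ γ⌋` -/
noncomputable def kernel (γ : ℝ) (Q N : ℕ) (θ : ℝ) : ℂ :=
  (1 - (1 - average ⌊(N : ℝ) ^ γ⌋₊ (Complex.exp (pt N θ)) ^ Q) ^ Q) * Complex.exp (pt N θ) ^ N /
    (2 * Real.pi)

/-- the comparison sequence `∑ a_i n ^ (-e_i)` -/
noncomputable def comparison {m : ℕ} (a e : Fin m → ℝ) (n : ℕ) : ℝ := ∑ i, a i * (n : ℝ) ^ (-(e i))

/-- the region `0 < Re s < s₀`, `|Im s| ≤ (Re s) ^ α` -/
def region (α s₀ : ℝ) : Set ℂ := {s | 0 < s.re ∧ s.re < s₀ ∧ |s.im| ≤ s.re ^ α}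

/-- `∑ n ^ k (b n - ∑ a_i n ^ (-e_i)) e ^ (-n s)`, the `k`-th derivative (up to the sign) of the difference of the
generating function of polyominoes and that of the comparison sequence -/
noncomputable def diffGF (lam : ℝ) (k : ℕ) {m : ℕ} (a e : Fin m → ℝ) (s : ℂ) : ℂ :=
  gf (fun n => (n : ℝ) ^ k * (b lam n - comparison a e n)) s

/-- **Theorem.** The growth constant `lam` of fixed polyominoes exists; the values of the generating function on the
interval `|θ| ≤ N ^ (-α)` near the critical point determine `b N` up to `O(N ^ (-M))`, for every `M`; and a comparison of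
the generating function with that of `∑ a_i n ^ (-e_i)`, near the critical point in the tangential region of the open disc,
gives the comparison of the coefficients. -/
theorem result : ∃ lam : ℝ, 1 ≤ lam ∧
    Tendsto (fun n : ℕ => (Kl.t n : ℝ) ^ ((1 : ℝ) / n)) atTop (𝓝 lam) ∧
    (∀ α γ : ℝ, 0 < α → α < γ → γ < 1 / 2 → ∀ M : ℕ, ∃ (Q : ℕ) (C : ℝ), ∀ N : ℕ, 1 ≤ N →
      ‖(b lam N : ℂ) - ∫ θ in (-((N : ℝ) ^ (-α)))..((N : ℝ) ^ (-α)),
        gf (b lam) (pt N θ) * kernel γ Q N θ‖ ≤ C * (N : ℝ) ^ (-(M : ℝ))) ∧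
    ∀ α : ℝ, 0 < α → α < 1 / 2 → ∀ (k : ℕ) (β : ℝ), β < k → ∀ (m : ℕ) (a e : Fin m → ℝ),
      ((∀ ε : ℝ, 0 < ε → ∃ s₀ : ℝ, 0 < s₀ ∧ ∀ s ∈ region α s₀,
          ‖diffGF lam k a e s‖ ≤ ε * ‖s‖ ^ (-((k : ℝ) - β + 1))) →
        (fun n => b lam n - comparison a e n) =o[atTop] fun n : ℕ => (n : ℝ) ^ (-β)) ∧
      ((∃ C s₀ : ℝ, 0 < s₀ ∧ ∀ s ∈ region α s₀,
          ‖diffGF lam k a e s‖ ≤ C * ‖s‖ ^ (-((k : ℝ) - β + 1))) →
        (fun n => b lam n - comparison a e n) =O[atTop] fun n : ℕ => (n : ℝ) ^ (-β)) := by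
  obtain ⟨lam, hlam, hlim, hd, -⟩ := Pool.Agent.Results.MP_56ddc0_co.AllOrders.result
  have hl0 : 0 < lam := by linarith
  have hle : lam = Kl.lam := tendsto_nhds_unique hlim Kl.tendsto_lam
  refine ⟨lam, hlam, hlim, ?_⟩
  have hb : ∀ n, 1 ≤ n → 0 < b lam n := fun n hn =>
    div_pos (by exact_mod_cast Kl.t_pos hn) (by positivity)
  have hf : ∀ τ : ℝ, 0 < τ → τ < 1 / 2 →
      Pool.Agent.H16TT.LogSym (fun n => (n : ℝ) ^ (-τ)) (fun n => Real.log (b lam n)) :=
    fun τ _ hτ => Pool.Agent.H16TT.logsym_of hd hτ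
  have hlog : ∀ τ κ : ℝ, 0 < τ → τ < 1 / 2 →
      Pool.Agent.H16TT.LogSym (fun n => (n : ℝ) ^ (-τ)) (fun n => κ * Real.log n) := by
    intro τ κ _ hτ
    refine Pool.Agent.H16TT.logsym_of (fun r hr => ?_) hτ
    obtain ⟨C, _, h⟩ := Pool.Agent.N929.EZ.log_nat r hr
    refine ⟨|κ| * C, fun n hn => ?_⟩
    have e : ∑ i ∈ Finset.range (r + 1), (-1 : ℝ) ^ i * (r.choose i : ℝ) *
        (κ * Real.log ((n + i : ℕ) : ℝ)) =
        κ * ∑ i ∈ Finset.range (r + 1), (-1 : ℝ) ^ i * (r.choose i : ℝ) *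
          Real.log ((n : ℝ) + i) := by
      rw [Finset.mul_sum]
      refine Finset.sum_congr rfl fun i _ => ?_
      push_cast
      ring
    rw [e, abs_mul, mul_assoc]
    exact mul_le_mul_of_nonneg_left (h n hn) (abs_nonneg κ)
  exact Pool.Agent.H16TT.general (b := b lam) hb hf hlog (K := 1) (B := 0) (fun n hn => by
    rw [pow_zero, mul_one]
    unfold b
    rw [div_le_one (by positivity), hle]
    exact Kl.t_le_lam n)

end Pool.Agent.Results.MP_d35578_co.GeneratingFunctionWindow
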