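import Pool.Agent.R79.SW.Step
import Pool.Agent.Results.MP_56ddc0_co.AllOrders

/-!
Fixed polyominoes: the limit points of the exponents `log (B_n / lam^n) / log n`, and exact power
laws along subsequences.

`Kl.t n` is the number `B_n` of fixed `n`-ominoes (classes of connected `n`-sets of cells of the
square lattice modulo translations).
-/

set_option autoImplicit false

open Filter Topology Pool.Agent.N789

namespace Pool.Agent.Results.MP_d35578_co.PowerLawsBetween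

/-- the exponent at the size `n`: `B_n = lam^n n^(θ_n)` -/
noncomputable def θ (lam : ℝ) (n : ℕ) : ℝ := Real.log ((Kl.t n : ℝ) / lam ^ n) / Real.log n

/-- the (finite) limit points of the exponents `θ_n` -/
def limitPoints (lam : ℝ) : Set ℝ := {x | MapClusterPt x atTop (θ lam)}

/-- infinitely many `n` of the parity `i` satisfy
`|B_n / (lam^n n^x) - A| ≤ K (1 + |x|) A log n / √n` -/
def PowerLaw (lam K x A : ℝ) (i : ℕ) : Prop :=
  ∃ᶠ n : ℕ in atTop, n % 2 = i ∧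
    |(Kl.t n : ℝ) / lam ^ n / (n : ℝ) ^ x - A| ≤ K * (1 + |x|) * A * (Real.log n / Real.sqrt n)

open Pool.Agent.R79.SW in
open Pool.Agent.R956.D2 (f f_nonneg f_tendsto) in
/-- the results for a positive sequence with slowly varying ratios, exponents bounded above (as
`Pool.Agent.R79.SW.pack`, for exponents bounded below) -/
theorem packB {v : ℕ → ℝ} (hv : ∀ n, 2 ≤ n → 0 < v n) {K0 : ℝ}
    (h : ∀ n, 2 ≤ n → |v (n + 1) / v n - 1| ≤ K0 * (Real.log n / Real.sqrt n))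
    {b : ℝ} (hb : ∀ᶠ n in atTop, ex v n ≤ b) :
    ∃ K : ℝ, 0 < K ∧
    (∀ c ε : ℝ, 0 < ε → (∃ᶠ n in atTop, ex v n ≤ c - ε) → (∃ᶠ n in atTop, c + ε ≤ ex v n) →
      ∀ B : ℝ, 0 < B → ∀ p : ℕ, p ≤ 1 → ∃ᶠ n : ℕ in atTop, n % 2 = p ∧
        |v n / (n : ℝ) ^ c - B| ≤ K * (1 + |c|) * B * (Real.log n / Real.sqrt n)) ∧
    (IsClosed (Lims (ex v)) ∧ (Lims (ex v)).OrdConnected) ∧
    (∀ γ : ℝ, Tendsto (ex v) atTop (𝓝 γ) ↔ γ ∈ Lims (ex v) ∧
      ∃ δ : ℝ, 0 < δ ∧ (Lims (ex v) ∩ Set.Ioo (γ - δ) (γ + δ)).Countable) ∧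
    (Tendsto (ex v) atTop atBot ∨ (∃ γ, Tendsto (ex v) atTop (𝓝 γ)) ∨
      ∃ x y : ℝ, x < y ∧ ∀ c ∈ Set.Ioo x y, ∀ B : ℝ, 0 < B → ∀ p : ℕ, p ≤ 1 →
        ∃ᶠ n : ℕ in atTop, n % 2 = p ∧
        |v n / (n : ℝ) ^ c - B| ≤ K * (1 + |c|) * B * (Real.log n / Real.sqrt n)) := by
  obtain ⟨K, hK, hK'⟩ : ∃ K : ℝ, 0 ≤ K ∧ ∀ n, 2 ≤ n → |v (n + 1) / v n - 1| ≤ K * f n :=
    ⟨|K0|, abs_nonneg _, fun n hn => (h n hn).trans
      (mul_le_mul_of_nonneg_right (le_abs_self _) (f_nonneg n))⟩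
  have S := slow_step hv hK hK'
  set u : ℕ → ℝ := fun n => if 2 ≤ n then v n else 1 with hu
  have huv : ∀ n, 2 ≤ n → u n = v n := fun n hn => by simp only [hu]; rw [if_pos hn]
  have hex : ∀ᶠ n in atTop, ex u n = ex v n := by
    filter_upwards [eventually_ge_atTop 2] with n hn
    unfold ex
    rw [huv n hn]
  have hL : Lims (ex u) = Lims (ex v) := by
    ext x
    show MapClusterPt x atTop (ex u) ↔ MapClusterPt x atTop (ex v)
    unfold MapClusterPt
    rw [Filter.map_congr hex]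
  have ht : ∀ l : Filter ℝ, Tendsto (ex u) atTop l ↔ Tendsto (ex v) atTop l := fun l =>
    tendsto_congr' hex
  have conv : ∀ {c B : ℝ} {p : ℕ}, 0 < B → (∃ᶠ n : ℕ in atTop, n % 2 = p ∧
      |u n / (n : ℝ) ^ c - B| ≤ B * (2 * (4 * K * f n) + 2 * |c| / n)) →
      ∃ᶠ n : ℕ in atTop, n % 2 = p ∧
        |v n / (n : ℝ) ^ c - B| ≤ (2 * (4 * K) + 4) * (1 + |c|) * B *
          (Real.log n / Real.sqrt n) := by
    intro c B p hB h
    refine ((freq_err (K := 4 * K) (by linarith) hB h).and_eventually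
      (eventually_ge_atTop 2)).mono fun n hn => ⟨hn.1.1, ?_⟩
    rw [← huv n hn.2]
    exact hn.1.2
  refine ⟨2 * (4 * K) + 4, by linarith, ?_, ⟨closed _, ?_⟩, fun γ => ?_, ?_⟩
  · intro c ε hε h1 h2 B hB p hp
    refine conv hB (main S hε ?_ ?_ hB hp)
    · exact (h1.and_eventually hex).mono fun n hn => by rw [hn.2]; exact hn.1
    · exact (h2.and_eventually hex).mono fun n hn => by rw [hn.2]; exact hn.1
  · rw [← hL]
    exact ord S
  · rw [← ht, ← hL]
    exact isolated_iff S γ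
  · have hb' : ∀ᶠ n in atTop, ex u n ≤ b := by
      filter_upwards [hb, hex] with n h1 h2
      rw [h2]; exact h1
    rcases below S hb' with h | ⟨γ, h⟩ | ⟨x, y, hxy, h⟩
    · exact Or.inl ((ht _).mp h)
    · exact Or.inr (Or.inl ⟨γ, (ht _).mp h⟩)
    · exact Or.inr (Or.inr ⟨x, y, hxy, fun c hc B hB p hp => conv hB (h c hc B hB p hp)⟩)

/-- **Theorem.** Let `B_n = Kl.t n` be the number of fixed polyominoes with `n` cells, `lam` the limit
of `B_n ^ (1/n)` and `θ_n = log (B_n / lam^n) / log n`; Q1 implies that `θ_n` converges. There is `K`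
such that:
(1) if for some `ε > 0` infinitely many `n` have `θ_n ≤ x - ε` and infinitely many `θ_n ≥ x + ε`, then
for every `A > 0` and each parity infinitely many `n` of this parity have
`|B_n / (lam^n n^x) - A| ≤ K (1 + |x|) A log n / √n`;
(2) the set of limit points of `θ_n` in `ℝ` is closed and an interval, contained in `(-∞, 0]`;
(3) `θ_n → γ` if and only if `γ` is a limit point near which there are only countably many limit
points;
(4) either `θ_n → -∞`, or `θ_n` converges, or there is an interval of exponents `x`, for all of which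
the conclusion of (1) holds. -/
theorem result : ∃ lam : ℝ, 1 ≤ lam ∧
    Tendsto (fun n : ℕ => (Kl.t n : ℝ) ^ ((1 : ℝ) / n)) atTop (𝓝 lam) ∧ ∃ K : ℝ, 0 < K ∧
    (∀ x ε : ℝ, 0 < ε → (∃ᶠ n in atTop, θ lam n ≤ x - ε) → (∃ᶠ n in atTop, x + ε ≤ θ lam n) →
      ∀ A : ℝ, 0 < A → ∀ i : ℕ, i ≤ 1 → PowerLaw lam K x A i) ∧
    (IsClosed (limitPoints lam) ∧ (limitPoints lam).OrdConnected ∧ limitPoints lam ⊆ Set.Iic 0) ∧
    (∀ γ : ℝ, Tendsto (θ lam) atTop (𝓝 γ) ↔ γ ∈ limitPoints lam ∧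
      ∃ δ : ℝ, 0 < δ ∧ (limitPoints lam ∩ Set.Ioo (γ - δ) (γ + δ)).Countable) ∧
    (Tendsto (θ lam) atTop atBot ∨ (∃ γ, Tendsto (θ lam) atTop (𝓝 γ)) ∨
      ∃ y z : ℝ, y < z ∧ ∀ x ∈ Set.Ioo y z, ∀ A : ℝ, 0 < A → ∀ i : ℕ, i ≤ 1 →
        PowerLaw lam K x A i) := by
  obtain ⟨lam, hlam, hlim, -, K1, hK1⟩ := Pool.Agent.Results.MP_56ddc0_co.AllOrders.result
  have hl0 : 0 < lam := by linarith
  have hle : lam = Kl.lam := tendsto_nhds_unique hlim Kl.tendsto_lam
  have hpos : ∀ n, 1 ≤ n → (0 : ℝ) < Kl.t n := fun n hn => by exact_mod_cast Kl.t_pos hn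
  set v : ℕ → ℝ := fun n => (Kl.t n : ℝ) / lam ^ n with hvd
  have hv : ∀ n, 2 ≤ n → 0 < v n := fun n hn => div_pos (hpos n (by omega)) (by positivity)
  have hexf : Pool.Agent.R79.SW.ex v = θ lam := rfl
  have hratio : ∀ n, 2 ≤ n →
      |v (n + 1) / v n - 1| ≤ (K1 / lam) * (Real.log n / Real.sqrt n) := by
    intro n hn
    have h1 := (hK1 n hn).1
    have p0 := hpos n (by omega)
    have e : v (n + 1) / v n - 1 = ((Kl.t (n + 1) : ℝ) / Kl.t n - lam) / lam := by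
      simp only [hvd]
      rw [pow_succ]
      field_simp
    rw [e, abs_div, abs_of_pos hl0, div_le_iff₀ hl0]
    calc |(Kl.t (n + 1) : ℝ) / Kl.t n - lam| ≤ K1 * (Real.log n / Real.sqrt n) := h1
      _ = K1 / lam * (Real.log n / Real.sqrt n) * lam := by field_simp
  have hup : ∀ᶠ n in atTop, Pool.Agent.R79.SW.ex v n ≤ 0 := by
    filter_upwards [eventually_ge_atTop 2] with n hn
    have hn2 : (2 : ℝ) ≤ n := by exact_mod_cast hn
    have hl : 0 < Real.log n := Real.log_pos (by linarith)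
    unfold Pool.Agent.R79.SW.ex
    refine div_nonpos_of_nonpos_of_nonneg (Real.log_nonpos (hv n hn).le ?_) hl.le
    simp only [hvd]
    rw [div_le_one (by positivity), hle]
    exact Kl.t_le_lam n
  obtain ⟨K, hK, P1, ⟨P2, P2'⟩, P3, P4⟩ := packB hv hratio hup
  rw [hexf] at P1 P2 P2' P3 P4
  refine ⟨lam, hlam, hlim, K, hK, fun x ε hε h1 h2 A hA i hi => P1 x ε hε h1 h2 A hA i hi,
    ⟨P2, P2', ?_⟩, P3, ?_⟩
  · intro x hx
    by_contra hc
    have hx1 : 0 < x := not_le.mp hc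
    have h1 := Pool.Agent.R79.SW.freq_high (c := x / 2) (g := θ lam) hx (by linarith)
    rw [hexf] at hup
    obtain ⟨n, h2, h3⟩ := (h1.and_eventually hup).exists
    linarith
  · rcases P4 with h | h | ⟨y, z, hyz, h⟩
    · exact Or.inl h
    · exact Or.inr (Or.inl h)
    · exact Or.inr (Or.inr ⟨y, z, hyz, fun x hx A hA i hi => h x hx A hA i hi⟩)

end Pool.Agent.Results.MP_d35578_co.PowerLawsBetween
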